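import Pool.Agent.W734.TWB.Stms

/-!
# S_MASS2: mass of the pair terms (S15753)
-/

set_option autoImplicit false

noncomputable section

namespace Pool.Agent.W397.TWB

open Pool.Agent.W734.TWB
open MeasureTheory Set Filter Metric ProbabilityTheory

/-! ### marginals -/

/-- products of densities -/
theorem pi_withDensity {N : ℕ} {E : Type*} [MeasureSpace E] [SigmaFinite (volume : Measure E)]
    {f : E → ℝ} (h0 : ∀ x, 0 ≤ f x) (hI : Integrable f) :
    Measure.pi (fun _ : Fin N => (volume : Measure E).withDensity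
      (fun x => ENNReal.ofReal (f x))) =
      (volume : Measure (Fin N → E)).withDensity (fun x => ENNReal.ofReal (∏ i, f (x i))) := by
  have hfin : IsFiniteMeasure ((volume : Measure E).withDensity
      (fun x => ENNReal.ofReal (f x))) := isFiniteMeasure_withDensity_ofReal hI.2
  refine Measure.pi_eq fun s hs => ?_
  have hI3 : Integrable (fun x : Fin N → E => ∏ i, f (x i)) :=
    Integrable.fintype_prod (ι := Fin N) (f := fun _ => f) (fun _ => hI)
  have hms : MeasurableSet (Set.univ.pi s) := MeasurableSet.univ_pi hs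
  rw [withDensity_apply _ hms, ← ofReal_integral_eq_lintegral_ofReal hI3.integrableOn
    (Eventually.of_forall fun x => Finset.prod_nonneg fun i _ => h0 _)]
  have h1 : ∫ x in Set.univ.pi s, ∏ i, f (x i) = ∏ i, ∫ x in s i, f x := by
    rw [volume_pi, Measure.restrict_pi_pi]
    exact integral_fintype_prod_eq_prod (fun _ : Fin N => f)
  rw [h1, ENNReal.ofReal_prod_of_nonneg (fun i _ => integral_nonneg h0)]
  refine Finset.prod_congr rfl fun i _ => ?_
  rw [withDensity_apply _ (hs i), ofReal_integral_eq_lintegral_ofReal hI.integrableOn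
    (Eventually.of_forall h0)]

theorem integral_wD {Z : Type*} [MeasureSpace Z] (F w : Z → ℝ)
    (hw : Measurable F) (hF0 : ∀ x, 0 ≤ F x) : ∫ x, w x ∂((volume : Measure Z).withDensity
      (fun x => ENNReal.ofReal (F x))) = ∫ x, F x * w x := by
  rw [integral_withDensity_eq_integral_toReal_smul hw.ennreal_ofReal
    (Eventually.of_forall fun x => ENNReal.ofReal_lt_top)]
  refine integral_congr_ae (Eventually.of_forall fun x => ?_)
  simp only [smul_eq_mul]
  rw [ENNReal.toReal_ofReal (hF0 x)]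

/-- the law of one particle -/
def rho (u : E3 → ℂ) : Measure E3 :=
  (volume : Measure E3).withDensity (fun x => ENNReal.ofReal (‖u x‖ ^ 2))

theorem int_sq {u : E3 → ℂ} (hu : Orb u) : Integrable (fun x => ‖u x‖ ^ 2) := by
  refine Continuous.integrable_of_hasCompactSupport (hu.diff.continuous.norm.pow 2) ?_
  refine hu.supp.comp_left (g := fun z : ℂ => ‖z‖ ^ 2) ?_
  simp

theorem rho_prob {u : E3 → ℂ} (hu : Orb u) : IsProbabilityMeasure (rho u) := by
  constructor
  unfold rho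
  rw [withDensity_apply _ MeasurableSet.univ, Measure.restrict_univ,
    ← ofReal_integral_eq_lintegral_ofReal (int_sq hu)
      (Eventually.of_forall fun x => by positivity), hu.norm, ENNReal.ofReal_one]

theorem int_wu {N : ℕ} {u : E3 → ℂ} (hu : Orb u) (G : Cfg N → ℝ) :
    ∫ x : Cfg N, wu u x * G x = ∫ x, G x ∂(Measure.pi (fun _ : Fin N => rho u)) := by
  have h := pi_withDensity (N := N) (f := fun x : E3 => ‖u x‖ ^ 2) (fun x => by positivity)
    (int_sq hu)
  unfold rho
  rw [h, integral_wD]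
  · rfl
  · refine Finset.measurable_prod _ fun i _ => ?_
    exact ((hu.diff.continuous.norm.pow 2).measurable).comp (measurable_pi_apply i)
  · intro x
    exact Finset.prod_nonneg fun i _ => by positivity

theorem int_rho {u : E3 → ℂ} (hu : Orb u) (G : E3 → ℝ) :
    ∫ x, G x ∂(rho u) = ∫ x, ‖u x‖ ^ 2 * G x := by
  unfold rho
  exact integral_wD (fun x => ‖u x‖ ^ 2) G ((hu.diff.continuous.norm.pow 2).measurable)
    (fun x => by positivity)

theorem law2 {N : ℕ} {ρ : Measure E3} [IsProbabilityMeasure ρ] {i j : Fin N} (hij : i ≠ j) :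
    (Measure.pi (fun _ : Fin N => ρ)).map (fun x => (x i, x j)) = ρ.prod ρ := by
  have h1 : iIndepFun (fun (i : Fin N) (ω : Fin N → E3) => ω i)
      (Measure.pi (fun _ : Fin N => ρ)) :=
    iIndepFun_pi (μ := fun _ : Fin N => ρ) (X := fun _ => id) (fun _ => aemeasurable_id)
  have h2 := h1.indepFun hij
  rw [indepFun_iff_map_prod_eq_prod_map_map (measurable_pi_apply i).aemeasurable
    (measurable_pi_apply j).aemeasurable] at h2
  rw [h2]
  have h3 := (measurePreserving_eval (fun _ : Fin N => ρ) i).map_eq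
  have h4 := (measurePreserving_eval (fun _ : Fin N => ρ) j).map_eq
  congr 1

theorem int_wu2 {N : ℕ} {u : E3 → ℂ} (hu : Orb u) {G : E3 × E3 → ℝ} (hG : Measurable G)
    {B : ℝ} (hB : ∀ p, |G p| ≤ B) {i j : Fin N} (hij : i ≠ j) :
    ∫ x : Cfg N, wu u x * G (x i, x j) =
      ∫ x, ‖u x‖ ^ 2 * ∫ y, ‖u y‖ ^ 2 * G (x, y) := by
  have := rho_prob hu
  rw [int_wu hu]
  have h1 : ∫ x : Cfg N, G (x i, x j) ∂(Measure.pi (fun _ : Fin N => rho u)) =
      ∫ p, G p ∂((rho u).prod (rho u)) := by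
    rw [← law2 hij, integral_map]
    · exact ((measurable_pi_apply i).prodMk (measurable_pi_apply j)).aemeasurable
    · exact hG.aestronglyMeasurable
  have h2 : Integrable G ((rho u).prod (rho u)) := by
    refine Integrable.mono' (integrable_const B) hG.aestronglyMeasurable
      (Eventually.of_forall fun p => ?_)
    rw [Real.norm_eq_abs]
    exact hB p
  rw [h1, integral_prod _ h2, int_rho hu]
  refine integral_congr_ae (Eventually.of_forall fun x => ?_)
  simp only
  rw [int_rho hu]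

/-! ### the substitution -/

theorem nb_int {q : E3 → ℝ} (hq : NB q) : Integrable q := by
  obtain ⟨M, hM⟩ := hq.bdd
  have h1 : IntegrableOn q (tsupport q) := by
    refine Measure.integrableOn_of_bounded (M := M) hq.supp.measure_lt_top.ne
      hq.meas.aestronglyMeasurable ?_
    refine Eventually.of_forall fun x => ?_
    rw [Real.norm_eq_abs, abs_of_nonneg (hq.nonneg x)]
    exact hM x
  rwa [integrableOn_iff_integrable_of_support_subset (subset_tsupport q)] at h1

theorem subst {N : ℕ} (hN : 0 < N) (g q : E3 → ℝ) (x : E3) :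
    ∫ y, g y * ((N : ℝ) ^ 2 * q ((N : ℝ) • (x - y))) =
      1 / (N : ℝ) * ∫ z, g (x - (N : ℝ)⁻¹ • z) * q z := by
  have hN0 : (0 : ℝ) < N := by exact_mod_cast hN
  have h1 : ∫ y, g y * ((N : ℝ) ^ 2 * q ((N : ℝ) • (x - y))) =
      ∫ w, g (x - w) * ((N : ℝ) ^ 2 * q ((N : ℝ) • w)) := by
    rw [← integral_sub_left_eq_self
      (fun w => g (x - w) * ((N : ℝ) ^ 2 * q ((N : ℝ) • w))) volume x]
    refine integral_congr_ae (Eventually.of_forall fun y => ?_)
    simp only [sub_sub_cancel]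
  have h2 : ∫ w, g (x - w) * ((N : ℝ) ^ 2 * q ((N : ℝ) • w)) =
      ∫ w, (fun z => (N : ℝ) ^ 2 * (g (x - (N : ℝ)⁻¹ • z) * q z)) ((N : ℝ) • w) := by
    refine integral_congr_ae (Eventually.of_forall fun w => ?_)
    simp only
    rw [smul_smul, inv_mul_cancel₀ hN0.ne', one_smul]
    ring
  rw [h1, h2, Measure.integral_comp_smul volume
    (fun z : E3 => (N : ℝ) ^ 2 * (g (x - (N : ℝ)⁻¹ • z) * q z)) (N : ℝ), integral_const_mul]
  have h3 : Module.finrank ℝ E3 = 3 := by simp
  rw [h3, abs_of_pos (by positivity), smul_eq_mul, ← mul_assoc]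
  congr 1
  field_simp

/-- uniform continuity of the density -/
theorem unif {u : E3 → ℂ} (hu : Orb u) {δ : ℝ} (hδ : 0 < δ) :
    ∃ δ' : ℝ, 0 < δ' ∧ ∀ x y : E3, ‖x - y‖ < δ' → ‖u x‖ ^ 2 ≤ ‖u y‖ ^ 2 + δ := by
  have hc : Continuous (fun x => ‖u x‖ ^ 2) := hu.diff.continuous.norm.pow 2
  have hs : HasCompactSupport (fun x => ‖u x‖ ^ 2) :=
    hu.supp.comp_left (g := fun z : ℂ => ‖z‖ ^ 2) (by simp)
  have h := hs.uniformContinuous_of_continuous hc
  rw [Metric.uniformContinuous_iff] at h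
  obtain ⟨δ', h1, h2⟩ := h δ hδ
  refine ⟨δ', h1, fun x y hxy => ?_⟩
  have h3 := h2 (a := x) (b := y) (by rw [dist_eq_norm]; exact hxy)
  rw [Real.dist_eq] at h3
  have h4 := (abs_lt.1 h3).2
  linarith

theorem bound {u : E3 → ℂ} (hu : Orb u) {q : E3 → ℝ} (hq : NB q) {ε : ℝ} (hε : 0 < ε) :
    ∃ N0 : ℕ, ∀ N : ℕ, N0 ≤ N → ∀ i j : Fin N, i ≠ j →
      ∫ x : Cfg N, wu u x * ((N : ℝ) ^ 2 * q ((N : ℝ) • (x i - x j))) ≤
        1 / (N : ℝ) * ((∫ z, q z) * (∫ z, ‖u z‖ ^ 4) + ε) := by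
  have hqi := nb_int hq
  have hQ : 0 ≤ ∫ z, q z := integral_nonneg hq.nonneg
  obtain ⟨δ, hδ⟩ : ∃ δ, δ = ε / (1 + ∫ z, q z) := ⟨_, rfl⟩
  have hδ0 : 0 < δ := by rw [hδ]; positivity
  have hδε : δ * ∫ z, q z ≤ ε := by
    rw [hδ, div_mul_eq_mul_div, div_le_iff₀ (by positivity)]
    nlinarith
  obtain ⟨δ', hδ'0, hun⟩ := unif hu hδ0
  obtain ⟨R, hR⟩ := hq.supp.isBounded.exists_norm_le
  obtain ⟨N0, hN0⟩ := exists_nat_gt (max 0 (R / δ'))
  refine ⟨N0, fun N hN i j hij => ?_⟩
  have hNr : max 0 (R / δ') < (N : ℝ) := hN0.trans_le (by exact_mod_cast hN)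
  have hNpos : (0 : ℝ) < N := (le_max_left _ _).trans_lt hNr
  have hNpos' : 0 < N := by exact_mod_cast hNpos
  have hRN : R < N * δ' := by
    have := (le_max_right _ _).trans_lt hNr
    rwa [div_lt_iff₀ hδ'0] at this
  obtain ⟨M, hM⟩ := hq.bdd
  have hmeas : Measurable (fun p : E3 × E3 => (N : ℝ) ^ 2 * q ((N : ℝ) • (p.1 - p.2))) := by
    have hm : Measurable (fun p : E3 × E3 => (N : ℝ) • (p.1 - p.2)) := by fun_prop
    exact (hq.meas.comp hm).const_mul _
  have h1 := int_wu2 hu (G := fun p : E3 × E3 => (N : ℝ) ^ 2 * q ((N : ℝ) • (p.1 - p.2))) hmeas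
    (B := (N : ℝ) ^ 2 * M) (fun p => by
      rw [abs_of_nonneg (mul_nonneg (by positivity) (hq.nonneg _))]
      exact mul_le_mul_of_nonneg_left (hM _) (by positivity)) hij
  simp only at h1
  rw [h1]
  -- the inner integral
  have hin : ∀ x : E3, ∫ y, ‖u y‖ ^ 2 * ((N : ℝ) ^ 2 * q ((N : ℝ) • (x - y))) ≤
      1 / (N : ℝ) * ((‖u x‖ ^ 2 + δ) * ∫ z, q z) := by
    intro x
    rw [subst hNpos' (fun y => ‖u y‖ ^ 2) q x]
    refine mul_le_mul_of_nonneg_left ?_ (by positivity)
    rw [← integral_const_mul]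
    refine integral_mono_of_nonneg (Eventually.of_forall fun z =>
      mul_nonneg (by positivity) (hq.nonneg z)) (hqi.const_mul _)
      (Eventually.of_forall fun z => ?_)
    simp only
    by_cases hz : q z = 0
    · rw [hz, mul_zero, mul_zero]
    · refine mul_le_mul_of_nonneg_right ?_ (hq.nonneg z)
      apply hun
      have hzR : ‖z‖ ≤ R := hR z (subset_tsupport q hz)
      rw [sub_sub_cancel_left, norm_neg, norm_smul, norm_inv, Real.norm_of_nonneg hNpos.le,
        inv_mul_lt_iff₀ hNpos]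
      exact hzR.trans_lt hRN
  have h4 : Integrable (fun x => ‖u x‖ ^ 4) := by
    refine Continuous.integrable_of_hasCompactSupport (hu.diff.continuous.norm.pow 4) ?_
    refine hu.supp.comp_left (g := fun z : ℂ => ‖z‖ ^ 4) ?_
    simp
  have h2 := int_sq hu
  have hdom : Integrable (fun x => 1 / (N : ℝ) * (∫ z, q z) * (‖u x‖ ^ 4 + δ * ‖u x‖ ^ 2)) :=
    (h4.add (h2.const_mul δ)).const_mul _
  have h5 : ∫ x, ‖u x‖ ^ 2 * ∫ y, ‖u y‖ ^ 2 * ((N : ℝ) ^ 2 * q ((N : ℝ) • (x - y))) ≤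
      ∫ x, 1 / (N : ℝ) * (∫ z, q z) * (‖u x‖ ^ 4 + δ * ‖u x‖ ^ 2) := by
    refine integral_mono_of_nonneg (Eventually.of_forall fun x => ?_) hdom
      (Eventually.of_forall fun x => ?_)
    · refine mul_nonneg (by positivity) (integral_nonneg fun y => ?_)
      exact mul_nonneg (by positivity) (mul_nonneg (by positivity) (hq.nonneg _))
    · simp only
      have h6 := mul_le_mul_of_nonneg_left (hin x) (by positivity : 0 ≤ ‖u x‖ ^ 2)
      refine h6.trans (le_of_eq ?_)
      ring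
  refine h5.trans ?_
  rw [integral_const_mul, integral_add h4 (h2.const_mul δ), integral_const_mul, hu.norm, mul_one,
    mul_assoc]
  refine mul_le_mul_of_nonneg_left ?_ (by positivity)
  rw [mul_add]
  linarith

theorem mass2 : S_IND → S_JAB → S_MASS2 := by
  intro hI hJ u hu R1 R2 f1 f2 hf1 hf2 q hq ε hε
  obtain ⟨N0, hN0⟩ := bound hu hq hε
  filter_upwards [eventually_ge_atTop N0] with N hN i j hij
  obtain ⟨hJ1, hJ2, _, hJ4, _⟩ := hJ R1 R2 f1 f2 hf1 hf2 N
  obtain ⟨M, hM⟩ := hq.bdd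
  have hb := hN0 N hN i j hij
  have h := hI N (fun _ x => ‖u x‖ ^ 2) (fun _ => int_sq hu) (fun _ x => by positivity) {i, j}
    (fun x => (N : ℝ) ^ 2 * q ((N : ℝ) • (x i - x j)))
    (fun x => (JA f1 f2 (Finset.univ \ {i, j}) x) ^ 2) ?_ ?_ ?_ ?_ ?_ ?_
  · have h1 : (∏ _i : Fin N, ∫ z, ‖u z‖ ^ 2) = 1 := by
      rw [hu.norm, Finset.prod_const_one]
    rw [h1, one_mul] at h
    have h2 : ∫ x : Cfg N, wu u x * ((N : ℝ) ^ 2 * q ((N : ℝ) • (x i - x j))
        * (JA f1 f2 (Finset.univ \ {i, j}) x) ^ 2) =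
        (∫ x : Cfg N, wu u x * ((N : ℝ) ^ 2 * q ((N : ℝ) • (x i - x j)))) *
          ZA f1 f2 u (Finset.univ \ {i, j}) := h
    rw [h2]
    refine mul_le_mul_of_nonneg_right hb ?_
    refine integral_nonneg fun x => mul_nonneg ?_ (sq_nonneg _)
    exact Finset.prod_nonneg fun i _ => by positivity
  · have hm : Measurable (fun x : Cfg N => (N : ℝ) • (x i - x j)) := by fun_prop
    exact (hq.meas.comp hm).const_mul _
  · exact (hJ1 _).continuous.measurable.pow_const 2
  · refine ⟨(N : ℝ) ^ 2 * M, fun x => ?_⟩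
    rw [abs_of_nonneg (mul_nonneg (by positivity) (hq.nonneg _))]
    exact mul_le_mul_of_nonneg_left (hM _) (by positivity)
  · refine ⟨1, fun x => ?_⟩
    rw [abs_of_nonneg (sq_nonneg _)]
    obtain ⟨a1, a2⟩ := hJ2 (Finset.univ \ {i, j}) x
    exact pow_le_one₀ a1 a2
  · intro x y hxy
    rw [hxy i (by simp), hxy j (by simp)]
  · intro x y hxy
    rw [hJ4 (Finset.univ \ {i, j}) x y fun l hl => hxy l (by
      intro h
      rw [Finset.mem_sdiff] at hl
      exact hl.2 h)]

end Pool.Agent.W397.TWB
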